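import Pool.Agent.H.MP_64e474_co.Defs

set_option autoImplicit false

namespace Pool.Agent.H.MP_64e474_co
open Finset

abbrev V := Fin 4 × Fin 4

def G : SimpleGraph V := (⊤ : SimpleGraph (Fin 4)) □ (⊤ : SimpleGraph (Fin 4))

def ad (u v : V) : Prop := (u.1 ≠ v.1 ∧ u.2 = v.2) ∨ (u.2 ≠ v.2 ∧ u.1 = v.1)

instance (u v : V) : Decidable (ad u v) := by unfold ad; infer_instance

theorem adj (u v : V) : G.Adj u v ↔ ad u v := by simp [G, ad]

def NB (A : Finset V) : Finset V := univ.filter fun a => ∃ b ∈ A, ad a b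

theorem NB_mono {A B : Finset V} (h : A ⊆ B) : NB A ⊆ NB B := fun a ha => by
  simp only [NB, mem_filter] at ha ⊢
  exact ⟨ha.1, ha.2.imp fun b hb => ⟨h hb.1, hb.2⟩⟩

theorem n0 : ∀ u v : V, 2 ≤ (NB {u} ∩ NB {v}).card := by decide +kernel
theorem n1 : ∀ u : V, 6 ≤ (NB {u}).card := by decide +kernel
theorem n2 : ∀ u v : V, u ≠ v → 10 ≤ (univ.filter fun a => ad a u ∨ ad a v).card := by
  decide +kernel
theorem n3 : ∀ u v : V, u ≠ v → ∀ w, u ≠ w → v ≠ w →
    12 ≤ (univ.filter fun a => ad a u ∨ ad a v ∨ ad a w).card := by decide +kernel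

theorem m1 (A : Finset V) (h : 1 ≤ A.card) : 6 ≤ (NB A).card := by
  obtain ⟨u, hu⟩ := card_pos.1 h
  exact (n1 u).trans (card_le_card (NB_mono (by simpa)))

theorem m2 (A : Finset V) (h : 2 ≤ A.card) : 10 ≤ (NB A).card := by
  obtain ⟨u, hu, v, hv, e⟩ := one_lt_card.1 h
  refine (n2 u v e).trans (card_le_card fun a ha => mem_filter.2 ⟨mem_univ _, ?_⟩)
  rcases (mem_filter.1 ha).2 with h | h
  exacts [⟨u, hu, h⟩, ⟨v, hv, h⟩]

theorem m3 (A : Finset V) (h : 3 ≤ A.card) : 12 ≤ (NB A).card := by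
  obtain ⟨u, v, w, hu, hv, hw, e1, e2, e3⟩ := two_lt_card_iff.1 h
  refine (n3 u v e1 w e2 e3).trans (card_le_card fun a ha => mem_filter.2 ⟨mem_univ _, ?_⟩)
  rcases (mem_filter.1 ha).2 with h | h | h
  exacts [⟨u, hu, h⟩, ⟨v, hv, h⟩, ⟨w, hw, h⟩]

theorem dual (A : Finset V) : A.card + (NB (NB A)ᶜ).card ≤ 16 := by
  rw [← card_union_of_disjoint]
  · exact card_le_univ _
  · refine disjoint_left.2 fun a ha h => ?_
    obtain ⟨b, hb, e⟩ := (mem_filter.1 h).2
    exact mem_compl.1 hb (mem_filter.2 ⟨mem_univ _, a, ha, (adj _ _).1 ((adj _ _).2 e).symm⟩)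

theorem cc (A : Finset V) : Aᶜ.card + A.card = 16 := by
  rw [card_compl_add_card]; rfl

open Classical in
noncomputable def S (φ : List (Fin 2) → V) (k : ℕ) : Finset V :=
  univ.filter fun a => ∃ ψ : List (Fin 2) → V, IsHom G ψ ∧ (∀ l, l.length = k → ψ l = φ l) ∧ ψ [] = a

theorem mem_S {φ : List (Fin 2) → V} {k : ℕ} {a : V} : a ∈ S φ k ↔
    ∃ ψ : List (Fin 2) → V, IsHom G ψ ∧ (∀ l, l.length = k → ψ l = φ l) ∧ ψ [] = a := by
  simp [S]

theorem step (φ : List (Fin 2) → V) (k : ℕ) :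
    NB (S (fun m => φ (0 :: m)) k) ∩ NB (S (fun m => φ (1 :: m)) k) ⊆ S φ (k + 1) := by
  intro a ha
  simp only [NB, mem_S, mem_inter, mem_filter, mem_univ, true_and] at ha ⊢
  obtain ⟨⟨_, ⟨ψ0, a0, b0, rfl⟩, c0⟩, _, ⟨ψ1, a1, b1, rfl⟩, c1⟩ := ha
  refine ⟨fun l => l.casesOn a fun i m => ![ψ0, ψ1] i m, fun l i => ?_, fun l hl => ?_, rfl⟩
  · cases l with
    | nil => fin_cases i; exacts [(adj _ _).2 c0, (adj _ _).2 c1]
    | cons j m => fin_cases j; exacts [a0 m i, a1 m i]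
  · cases l with
    | nil => simp at hl
    | cons j m => fin_cases j; exacts [b0 m (by simpa using hl), b1 m (by simpa using hl)]

theorem step' {k n m r : ℕ} (h : ∀ φ, IsHom G φ → n ≤ (S φ k).card)
    (h' : ∀ A : Finset V, n ≤ A.card → m ≤ (NB A).card) (hr : r + 16 ≤ 2 * m) :
    ∀ φ, IsHom G φ → r ≤ (S φ (k + 1)).card := by
  intro φ hφ
  have a0 := h' _ (h (fun m => φ (0 :: m)) fun l i => hφ (0 :: l) i)
  have a1 := h' _ (h (fun m => φ (1 :: m)) fun l i => hφ (1 :: l) i)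
  have a2 := card_le_card (step φ k)
  have a3 := card_union_add_card_inter (NB (S (fun m => φ (0 :: m)) k)) (NB (S (fun m => φ (1 :: m)) k))
  have a4 : (NB (S (fun m => φ (0 :: m)) k) ∪ NB (S (fun m => φ (1 :: m)) k)).card ≤ 16 :=
    card_le_univ _
  omega

theorem warm : Warm G 4 := by
  have s0 : ∀ φ, IsHom G φ → {φ []} ⊆ S φ 0 := fun φ h => by
    simp only [singleton_subset_iff, S, mem_filter, mem_univ, true_and]
    exact ⟨φ, h, fun _ _ => rfl, rfl⟩
  have s1 : ∀ φ, IsHom G φ → 2 ≤ (S φ 1).card := fun φ h =>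
    (n0 (φ [0]) (φ [1])).trans (card_le_card ((inter_subset_inter
      (NB_mono (s0 (fun m => φ (0 :: m)) fun l i => h (0 :: l) i))
      (NB_mono (s0 (fun m => φ (1 :: m)) fun l i => h (1 :: l) i))).trans (step φ 0)))
  have s2 := step' (r := 3) s1 m2 (by norm_num)
  have s3 := step' (r := 7) s2 m3 (by norm_num)
  have s4 := step' (r := 11) (m := 15) s3 (fun A h => by
    by_contra h1
    have := m2 (NB A)ᶜ (by have := cc (NB A); omega)
    have := dual A
    omega) (by norm_num)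
  have s5 := step' (r := 16) (m := 16) s4 (fun A h => by
    by_contra h1
    have := m1 (NB A)ᶜ (by have := cc (NB A); omega)
    have := dual A
    omega) (by norm_num)
  rintro φ hφ ⟨a, ha⟩
  have h1 : S φ 5 = univ := eq_univ_of_card _ (le_antisymm (card_le_univ _) (s5 φ hφ))
  have h2 : a ∈ S φ 5 := h1 ▸ mem_univ a
  exact ha 5 (by norm_num) (mem_S.1 h2)

def τ (u v : V) : ℤ := if u.1 ≠ v.1 ∧ u.2 ≠ v.2 then -1 else 1

theorem τ_co (w t u v : V) (h1 : ad w t) (h2 : ad w u) (h3 : ad w v) :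
    τ u v * τ t u * τ t v = 1 := by
  simp only [ad, τ, ne_eq, Fin.ext_iff] at *
  split_ifs <;> first | rfl | omega
theorem cabs : Continuous fun y : V → ℝ => |y| :=
  continuous_pi fun v => (continuous_apply v).abs
theorem τ_abs (u v : V) : |(τ u v : ℝ)| = 1 := by
  unfold τ; split_ifs <;> simp
theorem com : ∀ u v : V, ∃ w, ad w u ∧ ad w v := by decide +kernel

def ES : Set (V → ℝ) := {y | |y| ∈ NC G ∧ ∀ u v, 0 ≤ τ u v * y u * y v}

theorem sm (g : ℤˣ) (y : V → ℝ) : g • y = y ∨ g • y = -y := by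
  rcases Int.units_eq_one_or g with rfl | rfl <;> simp

theorem ES_neg {y : V → ℝ} (h : y ∈ ES) : -y ∈ ES :=
  ⟨by rw [abs_neg]; exact h.1, fun u v => by simpa using h.2 u v⟩

instance : MulAction ℤˣ ES where
  smul g y := ⟨g • y.1, (sm g y.1).elim (fun h => h.symm ▸ y.2) fun h => h.symm ▸ ES_neg y.2⟩
  one_smul y := Subtype.ext (one_smul _ y.1)
  mul_smul g h y := Subtype.ext (mul_smul g h y.1)

instance : ContinuousConstSMul ℤˣ ES :=
  ⟨fun g => Continuous.subtype_mk (f := fun y : ES => g • y.1)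
    (continuous_subtype_val.const_smul g) _⟩

theorem nz {x : V → ℝ} (h : x ∈ NC G) : ∃ u, x u ≠ 0 := by
  obtain ⟨u, _, hu⟩ := exists_ne_zero_of_sum_ne_zero (h.2.1 ▸ one_ne_zero : ∑ v, x v ≠ 0)
  exact ⟨u, hu⟩

instance : IsCancelSMul ℤˣ ES := isCancelSMul_iff_eq_one_of_smul_eq.2 fun g y h => by
  rcases Int.units_eq_one_or g with rfl | rfl
  · rfl
  · obtain ⟨u, hu⟩ := nz y.2.1
    have h1 : ((-1 : ℤˣ) • y.1) u = y.1 u := congrFun (congrArg Subtype.val h) u
    simp only [Units.neg_smul, one_smul, Pi.neg_apply] at h1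
    exact absurd (by simp [show y.1 u = 0 by linarith]) hu

theorem NC_closed : IsClosed (NC G) := by
  have : NC G = (⋂ v, {x | 0 ≤ x v}) ∩ ({x | ∑ v, x v = 1} ∩
      ⋃ w, ⋂ v, ⋂ _ : ¬ G.Adj w v, {x | x v = 0}) := by
    ext x
    simp only [NC, Set.mem_inter_iff, Set.mem_iInter, Set.mem_iUnion, Set.mem_setOf_eq,
      not_imp_comm]
  rw [this]
  exact (isClosed_iInter fun v => isClosed_le continuous_const (continuous_apply v)).inter
    ((isClosed_eq (by fun_prop) continuous_const).inter (isClosed_iUnion_of_finite fun w =>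
      isClosed_iInter fun v => isClosed_iInter fun _ =>
        isClosed_eq (continuous_apply v) continuous_const))

instance : CompactSpace ES := isCompact_iff_compactSpace.1 (by
  refine (isCompact_Icc (a := fun _ => -1) (b := fun _ => 1)).of_isClosed_subset ?_ fun y hy => ?_
  · refine (NC_closed.preimage cabs).inter ?_
    show IsClosed {y : V → ℝ | ∀ u v, 0 ≤ τ u v * y u * y v}
    simp only [Set.setOf_forall]
    exact isClosed_iInter fun u => isClosed_iInter fun v =>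
      isClosed_le continuous_const (by fun_prop)
  · have h : ∀ v, |y v| ≤ 1 := fun v =>
      (single_le_sum (f := |y|) (fun i _ => hy.1.1 i) (mem_univ v)).trans hy.1.2.1.le
    exact ⟨fun v => (abs_le.1 (h v)).1, fun v => (abs_le.1 (h v)).2⟩)

def p (y : ES) : NC G := ⟨|y.1|, y.2.1⟩

theorem p_cont : Continuous p := (cabs.comp continuous_subtype_val).subtype_mk _

theorem p_surj : Function.Surjective p := by
  intro x
  obtain ⟨t, ht⟩ := nz x.2
  obtain ⟨h1, h2, w, hw⟩ := x.2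
  have e : |fun v => τ t v * x.1 v| = x.1 := by
    funext v
    simp [abs_mul, τ_abs, abs_of_nonneg (h1 v)]
  refine ⟨⟨fun v => τ t v * x.1 v, e.symm ▸ x.2, fun u v => ?_⟩, Subtype.ext e⟩
  by_cases hu : x.1 u = 0
  · simp [hu]
  by_cases hv : x.1 v = 0
  · simp [hv]
  have h3 : (τ u v * τ t u * τ t v : ℝ) = 1 := by
    exact_mod_cast τ_co w t u v ((adj _ _).1 (hw t ht)) ((adj _ _).1 (hw u hu))
      ((adj _ _).1 (hw v hv))
  have h4 := mul_nonneg (h1 u) (h1 v)
  show 0 ≤ τ u v * (τ t u * x.1 u) * (τ t v * x.1 v)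
  rw [show τ u v * (τ t u * x.1 u) * (τ t v * x.1 v) =
    (τ u v * τ t u * τ t v) * (x.1 u * x.1 v) by ring, h3, one_mul]
  exact h4

theorem uniq {y z : V → ℝ} (hy : y ∈ ES) (hz : z ∈ ES) (e : |y| = |z|) {u : V} (hu : y u ≠ 0)
    (h : y u = z u) : y = z := by
  funext v
  rcases abs_eq_abs.1 (congrFun e v) with h1 | h1
  · exact h1
  · have a := hy.2 u v
    have b := hz.2 u v
    have c : (τ u v : ℝ) ≠ 0 := abs_ne_zero.1 (by rw [τ_abs]; norm_num)
    rw [← h] at b
    rw [h1] at a ⊢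
    have d : z v = 0 := (mul_eq_zero.1 (by linarith : τ u v * y u * z v = 0)).resolve_left
      (mul_ne_zero c hu)
    rw [d, neg_zero]

theorem p_cov : IsCoveringMap p := by
  refine ((p_cont.isClosedMap.isQuotientMap p_cont p_surj
    ).isQuotientCoveringMap_of_properlyDiscontinuousSMul (G := ℤˣ) fun {y z} => ?_).isCoveringMap
  constructor
  · intro h
    have e : |y.1| = |z.1| := congrArg Subtype.val h
    obtain ⟨u, hu⟩ := nz y.2.1
    have hu' : y.1 u ≠ 0 := abs_ne_zero.1 hu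
    rcases abs_eq_abs.1 (congrFun e u) with h1 | h1
    · exact ⟨1, (one_smul _ _).trans (Subtype.ext (uniq y.2 z.2 e hu' h1).symm)⟩
    · refine ⟨-1, Subtype.ext ?_⟩
      show (-1 : ℤˣ) • z.1 = y.1
      rw [uniq y.2 (ES_neg z.2) (by rw [abs_neg, e]) hu' h1]
      simp
  · rintro ⟨g, rfl⟩
    refine Subtype.ext ?_
    show |g • z.1| = |z.1|
    rcases sm g z.1 with h | h <;> rw [h]
    exact abs_neg _

theorem seg {u v : V} (h : τ u v = -1) (h' : τ v u = -1) (s : ℝ) (hs : |s| = 1) :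
    JoinedIn ES (Pi.single u s) (Pi.single v (-s)) := by
  have hne : u ≠ v := by
    rintro rfl
    simp [τ] at h
  refine JoinedIn.of_segment_subset ?_
  rintro _ ⟨a, b, ha, hb, hab, rfl⟩
  obtain ⟨w, w1, w2⟩ := com u v
  have e : |a • (Pi.single u s : V → ℝ) + b • Pi.single v (-s)| = Pi.single u a + Pi.single v b := by
    funext t
    by_cases h1 : t = u
    · simp [h1, hne, abs_mul, hs, abs_of_nonneg ha]
    by_cases h2 : t = v
    · simp [h2, hne.symm, abs_mul, hs, abs_of_nonneg hb]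
    · simp [h1, h2]
  have s2 : 0 ≤ s * s := mul_self_nonneg s
  refine ⟨e ▸ ⟨fun t => ?_, ?_, w, fun t ht => ?_⟩, fun t t' => ?_⟩
  · simp only [Pi.add_apply, Pi.single_apply]
    split_ifs <;> linarith
  · simp [sum_add_distrib, hab]
  · by_cases h1 : t = u
    · exact h1 ▸ (adj _ _).2 w1
    by_cases h2 : t = v
    · exact h2 ▸ (adj _ _).2 w2
    · simp [h1, h2] at ht
  · have t1 : τ u u = 1 := by simp [τ]
    have t2 : τ v v = 1 := by simp [τ]
    have q := mul_nonneg (mul_nonneg ha hb) s2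
    by_cases h1 : t = u
    · by_cases h2 : t' = u
      · simp [h1, h2, hne, t1, mul_self_nonneg]
      by_cases h3 : t' = v
      · simp [h1, h3, hne, hne.symm, h]; nlinarith
      · simp [h2, h3]
    by_cases h2 : t = v
    · by_cases h3 : t' = u
      · simp [h2, h3, hne, hne.symm, h']; nlinarith
      by_cases h4 : t' = v
      · simp [h2, h4, hne.symm, t2, mul_self_nonneg]
      · simp [h3, h4]
    · simp [h1, h2]

theorem not_sc : ¬ SimplyConnectedSpace (NC G) := by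
  intro h
  have j1 := seg (u := (0, 0)) (v := (1, 1)) (by decide) (by decide) 1 (by simp)
  have j2 := seg (u := (1, 1)) (v := (2, 2)) (by decide) (by decide) (-1) (by simp)
  have j3 := seg (u := (2, 2)) (v := (0, 0)) (by decide) (by decide) (- -1) (by simp)
  have j := (j1.trans j2).trans j3
  obtain ⟨γ⟩ := j.joined_subtype
  have e : p ⟨_, j.target_mem⟩ = p ⟨_, j.source_mem⟩ := Subtype.ext (by
    funext t
    by_cases h1 : t = (0, 0) <;> simp [p, h1])
  let δ : Path (p ⟨_, j.source_mem⟩) (p ⟨_, j.source_mem⟩) :=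
    ⟨ContinuousMap.comp ⟨p, p_cont⟩ γ.toContinuousMap, congrArg p γ.source,
      (congrArg p γ.target).trans e⟩
  have h1 := (p_cov.homotopicRel_iff_comp (f₀ := γ.toContinuousMap)
    (f₁ := ContinuousMap.const _ ⟨_, j.source_mem⟩) (S := {0, 1}) ⟨0, Or.inl rfl, γ.source⟩).2
    (SimplyConnectedSpace.paths_homotopic δ (Path.refl _))
  have h2 := γ.target.symm.trans (h1.fst_eq_snd (x := 1) (Or.inr rfl))
  have h3 := congrFun (congrArg Subtype.val h2) (0, 0)
  simp at h3
  norm_num at h3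

end Pool.Agent.H.MP_64e474_co
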