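import Mathlib

set_option autoImplicit false

namespace Pool.Agent.H.MP_64e474_co

variable {V : Type} (H : SimpleGraph V)

/-- homomorphisms from the rooted tree with `d` children per vertex; vertices are addresses -/
def IsHom {d : ℕ} (φ : List (Fin d) → V) : Prop := ∀ l i, H.Adj (φ l) (φ (l ++ [i]))

def Cold {d : ℕ} (φ : List (Fin d) → V) : Prop :=
  ∃ a, ∀ k, 1 ≤ k → ¬ ∃ ψ : List (Fin d) → V, IsHom H ψ ∧ (∀ l, l.length = k → ψ l = φ l) ∧ ψ [] = a

def Warm (d : ℕ) : Prop := ∀ φ : List (Fin (d - 2)) → V, IsHom H φ → ¬ Cold H φ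

/-- geometric realisation of the neighbourhood complex -/
def NC [Fintype V] : Set (V → ℝ) :=
  {x | (∀ v, 0 ≤ x v) ∧ ∑ v, x v = 1 ∧ ∃ w, ∀ v, x v ≠ 0 → H.Adj w v}

end Pool.Agent.H.MP_64e474_co
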